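import Pool.Agent.T9h5.NT.Defs
import Pool.Agent.N536.HK.Lin

/-!
# Periodic cyclic homology of tensor products: pure correspondences
-/

set_option autoImplicit false

open CategoryTheory MonoidalCategory Module

namespace Pool.Agent.T9h5.NT

open Pool.Agent.N536.HK Pool.Agent.H914

universe v w x z

variable {k : Type x} [Field k] {C : Type w} [Category.{v} C] [MonoidalCategory C]
  {R : Realisation.{v, w, x, z} k C} {A B D : C}

section Ext

lemma ext_eq_conj (f : Module.End k (R.H A)) (g : Module.End k (R.H B)) :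
    ext R A B f g = (R.kun A B).conj (TensorProduct.map f g) := rfl

lemma ext_mul (f f' : Module.End k (R.H A)) (g g' : Module.End k (R.H B)) :
    (ext R A B (f * f') (g * g') : Module.End k (R.H (A ⊗ B))) =
      (ext R A B f g : Module.End k (R.H (A ⊗ B))) * ext R A B f' g' := by
  simp only [ext_eq_conj]
  rw [Module.End.mul_eq_comp, Module.End.mul_eq_comp, TensorProduct.map_comp,
    LinearEquiv.conj_comp]
  rfl

lemma ext_one : (ext R A B 1 1 : Module.End k (R.H (A ⊗ B))) = 1 := by
  simp only [ext_eq_conj]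
  have h : TensorProduct.map (1 : Module.End k (R.H A)) (1 : Module.End k (R.H B)) =
      LinearMap.id := TensorProduct.map_id
  rw [h, LinearEquiv.conj_id]
  rfl

lemma ext_add_left (f f' : Module.End k (R.H A)) (g : Module.End k (R.H B)) :
    ext R A B (f + f') g = ext R A B f g + ext R A B f' g := by
  simp only [ext_eq_conj]
  rw [TensorProduct.map_add_left, map_add]

lemma ext_add_right (f : Module.End k (R.H A)) (g g' : Module.End k (R.H B)) :
    ext R A B f (g + g') = ext R A B f g + ext R A B f g' := by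
  simp only [ext_eq_conj]
  rw [TensorProduct.map_add_right, map_add]

lemma ext_smul_left (c : k) (f : Module.End k (R.H A)) (g : Module.End k (R.H B)) :
    ext R A B (c • f) g = c • ext R A B f g := by
  simp only [ext_eq_conj]
  rw [TensorProduct.map_smul_left, map_smul]

lemma ext_smul_right (c : k) (f : Module.End k (R.H A)) (g : Module.End k (R.H B)) :
    ext R A B f (c • g) = c • ext R A B f g := by
  simp only [ext_eq_conj]
  rw [TensorProduct.map_smul_right, map_smul]

lemma ext_zero_left (g : Module.End k (R.H B)) :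
    ext R A B (0 : Module.End k (R.H A)) g = 0 := by
  have h := ext_smul_left (R := R) (A := A) (B := B) 0 (0 : Module.End k (R.H A)) g
  rwa [zero_smul, zero_smul] at h

lemma ext_zero_right (f : Module.End k (R.H A)) :
    ext R A B f (0 : Module.End k (R.H B)) = 0 := by
  have h := ext_smul_right (R := R) (A := A) (B := B) 0 f (0 : Module.End k (R.H B))
  rwa [zero_smul, zero_smul] at h

lemma trace_ext (f : Module.End k (R.H A)) (g : Module.End k (R.H B)) :
    LinearMap.trace k _ (ext R A B f g) = LinearMap.trace k _ f * LinearMap.trace k _ g := by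
  simp only [ext_eq_conj]
  rw [LinearMap.trace_conj', LinearMap.trace_tensorProduct']

end Ext

section Corr

lemma corr_one (hs : IsSuperFunctor R) (A : C) : (1 : Module.End k (R.H A)) ∈ corr R A :=
  Submodule.subset_span ⟨𝟙 A, hs.map_id A⟩

lemma corr_mul (hs : IsSuperFunctor R) {a b : Module.End k (R.H A)} (ha : a ∈ corr R A)
    (hb : b ∈ corr R A) : a * b ∈ corr R A := by
  induction ha using Submodule.span_induction with
  | mem x hx =>
    obtain ⟨f, rfl⟩ := hx
    induction hb using Submodule.span_induction with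
    | mem y hy =>
      obtain ⟨g, rfl⟩ := hy
      exact Submodule.subset_span ⟨g ≫ f, hs.map_comp g f⟩
    | zero => rw [mul_zero]; exact Submodule.zero_mem _
    | add y y' _ _ h h' => rw [mul_add]; exact Submodule.add_mem _ h h'
    | smul c y _ h => rw [mul_smul_comm]; exact Submodule.smul_mem _ _ h
  | zero => rw [zero_mul]; exact Submodule.zero_mem _
  | add x x' _ _ h h' => rw [add_mul]; exact Submodule.add_mem _ h h'
  | smul c x _ h => rw [smul_mul_assoc]; exact Submodule.smul_mem _ _ h

lemma par_sq (hs : IsSuperFunctor R) (A : C) :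
    (R.par A * R.par A : Module.End k (R.H A)) = 1 :=
  LinearMap.ext fun a => hs.par_par A a

lemma par_comm (hs : IsSuperFunctor R) {a : Module.End k (R.H A)} (ha : a ∈ corr R A) :
    (R.par A : Module.End k (R.H A)) * a = a * R.par A := by
  induction ha using Submodule.span_induction with
  | mem x hx =>
    obtain ⟨f, rfl⟩ := hx
    exact LinearMap.ext fun a => hs.par_map f a
  | zero => rw [mul_zero, zero_mul]
  | add x y _ _ h h' => rw [mul_add, add_mul, h, h']
  | smul c x _ h => rw [mul_smul_comm, smul_mul_assoc, h]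

lemma corr_ext (hm : IsMonoidal R) {a : Module.End k (R.H A)} {b : Module.End k (R.H B)}
    (ha : a ∈ corr R A) (hb : b ∈ corr R B) : ext R A B a b ∈ corr R (A ⊗ B) := by
  induction ha using Submodule.span_induction with
  | mem x hx =>
    obtain ⟨f, rfl⟩ := hx
    induction hb using Submodule.span_induction with
    | mem y hy =>
      obtain ⟨g, rfl⟩ := hy
      exact Submodule.subset_span ⟨f ⊗ₘ g, hm.ext_map f g⟩
    | zero => rw [ext_zero_right]; exact Submodule.zero_mem _
    | add y y' _ _ h h' => rw [ext_add_right]; exact Submodule.add_mem _ h h'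
    | smul c y _ h => rw [ext_smul_right]; exact Submodule.smul_mem _ _ h
  | zero => rw [ext_zero_left]; exact Submodule.zero_mem _
  | add x x' _ _ h h' => rw [ext_add_left]; exact Submodule.add_mem _ h h'
  | smul c x _ h => rw [ext_smul_left]; exact Submodule.smul_mem _ _ h

/-- The partial supertrace over the second factor. -/
lemma ptrace_left (hm : IsMonoidal R) {a : Module.End k (R.H (A ⊗ B))}
    (ha : a ∈ corr R (A ⊗ B)) : ∃ g ∈ corr R A, ∀ x : Module.End k (R.H A),
      LinearMap.trace k _ (g * x) = LinearMap.trace k _ (a * ext R A B x (R.par B)) := by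
  induction ha using Submodule.span_induction with
  | mem y hy =>
    obtain ⟨f, rfl⟩ := hy
    obtain ⟨g, hg⟩ := hm.trace_left f
    exact ⟨R.map g, Submodule.subset_span ⟨g, rfl⟩, hg⟩
  | zero => exact ⟨0, Submodule.zero_mem _, fun x => by rw [zero_mul, zero_mul]; simp⟩
  | add y y' _ _ h h' =>
    obtain ⟨g, hg, h⟩ := h
    obtain ⟨g', hg', h'⟩ := h'
    exact ⟨g + g', Submodule.add_mem _ hg hg', fun x => by
      rw [add_mul, add_mul, map_add, map_add, h, h']⟩
  | smul c y _ h =>
    obtain ⟨g, hg, h⟩ := h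
    exact ⟨c • g, Submodule.smul_mem _ _ hg, fun x => by
      rw [smul_mul_assoc, smul_mul_assoc, map_smul, map_smul, h]⟩

/-- The partial supertrace over the first factor. -/
lemma ptrace_right (hm : IsMonoidal R) {a : Module.End k (R.H (A ⊗ B))}
    (ha : a ∈ corr R (A ⊗ B)) : ∃ g ∈ corr R B, ∀ y : Module.End k (R.H B),
      LinearMap.trace k _ (g * y) = LinearMap.trace k _ (a * ext R A B (R.par A) y) := by
  induction ha using Submodule.span_induction with
  | mem y hy =>
    obtain ⟨f, rfl⟩ := hy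
    obtain ⟨g, hg⟩ := hm.trace_right f
    exact ⟨R.map g, Submodule.subset_span ⟨g, rfl⟩, hg⟩
  | zero => exact ⟨0, Submodule.zero_mem _, fun x => by rw [zero_mul, zero_mul]; simp⟩
  | add y y' _ _ h h' =>
    obtain ⟨g, hg, h⟩ := h
    obtain ⟨g', hg', h'⟩ := h'
    exact ⟨g + g', Submodule.add_mem _ hg hg', fun x => by
      rw [add_mul, add_mul, map_add, map_add, h, h']⟩
  | smul c y _ h =>
    obtain ⟨g, hg, h⟩ := h
    exact ⟨c • g, Submodule.smul_mem _ _ hg, fun x => by
      rw [smul_mul_assoc, smul_mul_assoc, map_smul, map_smul, h]⟩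

end Corr

section Pure

/-- The combinations of correspondences whose image has parity `s`. -/
noncomputable def PureS (R : Realisation.{v, w, x, z} k C) (A : C) (s : k) :
    Submodule k (Module.End k (R.H A)) where
  carrier := {a | a ∈ corr R A ∧ (R.par A : Module.End k (R.H A)) * a = s • a}
  zero_mem' := ⟨Submodule.zero_mem _, by simp⟩
  add_mem' := fun {a b} ha hb => ⟨Submodule.add_mem _ ha.1 hb.1, by
    rw [mul_add, ha.2, hb.2, smul_add]⟩
  smul_mem' := fun c a ha => ⟨Submodule.smul_mem _ _ ha.1, by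
    rw [mul_smul_comm, ha.2, smul_comm]⟩

lemma pureS_mul (hs : IsSuperFunctor R) {s : k} {a b : Module.End k (R.H A)}
    (ha : a ∈ PureS R A s) (hb : b ∈ corr R A) : a * b ∈ PureS R A s :=
  ⟨corr_mul hs ha.1 hb, by rw [← mul_assoc, ha.2, smul_mul_assoc]⟩

lemma pureS_orth (hs : IsSuperFunctor R) {s t : k} (hst : s ≠ t) {a b : Module.End k (R.H A)}
    (ha : a ∈ PureS R A s) (hb : b ∈ PureS R A t) : a * b = 0 := by
  have h1 : s • (a * b) = t • (a * b) := by
    rw [← smul_mul_assoc, ← ha.2, par_comm hs ha.1, mul_assoc, hb.2, mul_smul_comm]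
  rw [← sub_eq_zero, ← sub_smul] at h1
  exact (smul_eq_zero.1 h1).resolve_left (sub_ne_zero.2 hst)

lemma isPure_iff {s : k} {e : Module.End k (R.H A)} :
    IsPure R A s e ↔ e ∈ PureS R A s ∧ e * e = e := by
  constructor
  · rintro ⟨h1, h2⟩
    exact ⟨⟨h1, LinearMap.ext fun a => (h2 a).2⟩, LinearMap.ext fun a => (h2 a).1⟩
  · rintro ⟨h1, h2⟩
    exact ⟨h1.1, fun a => ⟨congrArg (fun F : Module.End k (R.H A) => F a) h2,
      congrArg (fun F : Module.End k (R.H A) => F a) h1.2⟩⟩

/-- Orthogonality to all pure correspondences. -/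
def NK (R : Realisation.{v, w, x, z} k C) (A : C) (q : Module.End k (R.H A)) : Prop :=
  ∀ s : k, s * s = 1 → ∀ a ∈ PureS R A s, LinearMap.trace k _ (a * q) = 0

lemma sq_one {s : k} (hs : s * s = 1) : s = 1 ∨ s = -1 := mul_self_eq_one_iff.1 hs

variable [CharZero k]

lemma one_ne_neg_one' : (1 : k) ≠ -1 := by
  intro h
  have h2 : (2 : k) = 0 := by linear_combination h
  exact two_ne_zero h2

/-- A sum of an even and an odd idempotent. -/
def Halves (R : Realisation.{v, w, x, z} k C) (A : C) (e : Module.End k (R.H A)) : Prop :=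
  ∃ e0 ∈ PureS R A 1, ∃ e1 ∈ PureS R A (-1), e0 * e0 = e0 ∧ e1 * e1 = e1 ∧ e = e0 + e1

lemma Halves.idem (hs : IsSuperFunctor R) {e : Module.End k (R.H A)} (h : Halves R A e) :
    e * e = e := by
  obtain ⟨e0, h0, e1, h1, h2, h3, rfl⟩ := h
  exact idem_add h2 h3 (pureS_orth hs one_ne_neg_one' h0 h1)
    (pureS_orth hs (Ne.symm one_ne_neg_one') h1 h0)

omit [CharZero k] in
lemma Halves.mem {e : Module.End k (R.H A)} (h : Halves R A e) : e ∈ corr R A := by
  obtain ⟨e0, h0, e1, h1, h2, h3, rfl⟩ := h
  exact Submodule.add_mem _ h0.1 h1.1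

/-- There is a largest sum of an even and an odd idempotent. -/
lemma exists_halves (hs : IsSuperFunctor R) (A : C) : ∃ e, Halves R A e ∧ NK R A (1 - e) := by
  obtain ⟨e0, h0, h01, h02⟩ := exists_max_idem (PureS R A 1)
    fun a ha b hb => pureS_mul hs ha hb.1
  obtain ⟨e1, h1, h11, h12⟩ := exists_max_idem (PureS R A (-1))
    fun a ha b hb => pureS_mul hs ha hb.1
  refine ⟨e0 + e1, ⟨e0, h0, e1, h1, h01, h11, rfl⟩, fun s hs' a ha => ?_⟩
  rw [LinearMap.trace_mul_comm]
  rcases sq_one hs' with rfl | rfl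
  · have h3 : e1 * a = 0 := pureS_orth hs (Ne.symm one_ne_neg_one') h1 ha
    have h4 : (1 - (e0 + e1)) * a = (1 - e0) * a - e1 * a := by
      rw [sub_mul, sub_mul, add_mul, sub_add_eq_sub_sub]
    rw [h4, h3, sub_zero, h02 a ha]
  · have h3 : e0 * a = 0 := pureS_orth hs one_ne_neg_one' h0 ha
    have h4 : (1 - (e0 + e1)) * a = (1 - e1) * a - e0 * a := by
      rw [sub_mul, sub_mul, add_mul, sub_add_eq_sub_sub]
      abel
    rw [h4, h3, sub_zero, h12 a ha]

/-- The bound for the ranks. -/
lemma rank_halves_le (hs : IsSuperFunctor R) {q e : Module.End k (R.H A)} (hq : q ∈ corr R A)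
    (h : NK R A q) (he : Halves R A e) :
    finrank k (LinearMap.range e) ≤ finrank k (LinearMap.range (1 - q)) := by
  apply rank_le_of_nilpotent (he.idem hs)
  apply isNilpotent_of_trace_pow
  intro r
  have hmem : ∀ r : ℕ, (q * e) ^ r ∈ corr R A := by
    intro r
    induction r with
    | zero => exact corr_one hs A
    | succ r ih => rw [pow_succ]; exact corr_mul hs ih (corr_mul hs hq he.mem)
  obtain ⟨e0, h0, e1, h1, h2, h3, he'⟩ := he
  have h5 : (q * e) ^ (r + 1) = q * (e0 * (q * e) ^ r) + q * (e1 * (q * e) ^ r) := by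
    rw [pow_succ', he', ← mul_add, ← add_mul, mul_assoc]
  rw [h5, map_add, LinearMap.trace_mul_comm, h 1 (by ring) _ (pureS_mul hs h0 (hmem r)),
    LinearMap.trace_mul_comm k q, h (-1) (by ring) _ (pureS_mul hs h1 (hmem r)), add_zero]

end Pure

section Product

omit [MonoidalCategory C] in
lemma trace_nondeg {V : Type*} [AddCommGroup V] [Module k V] [FiniteDimensional k V]
    {f g : Module.End k V} (h : ∀ x : Module.End k V,
      LinearMap.trace k V (f * x) = LinearMap.trace k V (g * x)) : f = g := by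
  apply LinearMap.ext
  intro v
  rw [← sub_eq_zero, ← Module.forall_dual_apply_eq_zero_iff k]
  intro φ
  have h1 := h (φ.smulRight v)
  have h2 : ∀ f : Module.End k V, f * φ.smulRight v = φ.smulRight (f v) := by
    intro f
    apply LinearMap.ext
    intro y
    rw [Module.End.mul_apply, LinearMap.smulRight_apply, LinearMap.smulRight_apply, map_smul]
  rw [h2, h2, LinearMap.trace_smulRight, LinearMap.trace_smulRight] at h1
  rw [map_sub, h1, sub_self]

/-- The partial trace over the second factor of a pure correspondence. -/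
lemma ptrace_pure (hs : IsSuperFunctor R) (hm : IsMonoidal R) {s t : k} (ht : t * t = 1)
    {a : Module.End k (R.H (A ⊗ B))} (ha : a ∈ PureS R (A ⊗ B) s) {y : Module.End k (R.H B)}
    (hy : y ∈ PureS R B t) : ∃ g ∈ PureS R A (s * t), ∀ x : Module.End k (R.H A),
      LinearMap.trace k _ (a * ext R A B x y) = LinearMap.trace k _ (g * x) := by
  obtain ⟨g, hg, h1⟩ := ptrace_left hm (corr_mul hs ha.1 (corr_ext hm (corr_one hs A) hy.1))
  have h2 : ∀ x : Module.End k (R.H A),
      LinearMap.trace k _ (g * x) = t * LinearMap.trace k _ (a * ext R A B x y) := by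
    intro x
    rw [h1, mul_assoc, ← ext_mul, one_mul, ← par_comm hs hy.1, hy.2, ext_smul_right,
      mul_smul_comm, map_smul, smul_eq_mul]
  have h3 : ∀ x : Module.End k (R.H A), LinearMap.trace k _ (a * ext R A B (x * R.par A) y) =
      t * (s * LinearMap.trace k _ (a * ext R A B x y)) := by
    intro x
    have h4 : y = t • (y * R.par B) := by
      rw [← par_comm hs hy.1, hy.2, smul_smul, ht, one_smul]
    conv_lhs => rw [h4]
    rw [ext_smul_right, ext_mul, ← hm.ext_par, mul_smul_comm, map_smul, ← mul_assoc,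
      LinearMap.trace_mul_comm, ← mul_assoc, ha.2, smul_mul_assoc, map_smul, smul_eq_mul,
      smul_eq_mul]
  refine ⟨t • g, ⟨Submodule.smul_mem _ _ hg, ?_⟩, fun x => ?_⟩
  · rw [mul_smul_comm, smul_comm]
    congr 1
    apply trace_nondeg
    intro x
    rw [mul_assoc, LinearMap.trace_mul_comm, mul_assoc, h2, h3, smul_mul_assoc, map_smul, h2,
      smul_eq_mul]
    ring
  · rw [smul_mul_assoc, map_smul, h2, smul_eq_mul, ← mul_assoc, ht, one_mul]

/-- The partial trace over the first factor of a pure correspondence. -/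
lemma ptrace_pure' (hs : IsSuperFunctor R) (hm : IsMonoidal R) {s t : k} (ht : t * t = 1)
    {a : Module.End k (R.H (A ⊗ B))} (ha : a ∈ PureS R (A ⊗ B) s) {x : Module.End k (R.H A)}
    (hx : x ∈ PureS R A t) : ∃ g ∈ PureS R B (s * t), ∀ y : Module.End k (R.H B),
      LinearMap.trace k _ (a * ext R A B x y) = LinearMap.trace k _ (g * y) := by
  obtain ⟨g, hg, h1⟩ := ptrace_right hm (corr_mul hs ha.1 (corr_ext hm hx.1 (corr_one hs B)))
  have h2 : ∀ y : Module.End k (R.H B),
      LinearMap.trace k _ (g * y) = t * LinearMap.trace k _ (a * ext R A B x y) := by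
    intro y
    rw [h1, mul_assoc, ← ext_mul, one_mul, ← par_comm hs hx.1, hx.2, ext_smul_left,
      mul_smul_comm, map_smul, smul_eq_mul]
  have h3 : ∀ y : Module.End k (R.H B), LinearMap.trace k _ (a * ext R A B x (y * R.par B)) =
      t * (s * LinearMap.trace k _ (a * ext R A B x y)) := by
    intro y
    have h4 : x = t • (x * R.par A) := by
      rw [← par_comm hs hx.1, hx.2, smul_smul, ht, one_smul]
    conv_lhs => rw [h4]
    rw [ext_smul_left, ext_mul, ← hm.ext_par, mul_smul_comm, map_smul, ← mul_assoc,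
      LinearMap.trace_mul_comm, ← mul_assoc, ha.2, smul_mul_assoc, map_smul, smul_eq_mul,
      smul_eq_mul]
  refine ⟨t • g, ⟨Submodule.smul_mem _ _ hg, ?_⟩, fun x => ?_⟩
  · rw [mul_smul_comm, smul_comm]
    congr 1
    apply trace_nondeg
    intro y
    rw [mul_assoc, LinearMap.trace_mul_comm, mul_assoc, h2, h3, smul_mul_assoc, map_smul, h2,
      smul_eq_mul]
    ring
  · rw [smul_mul_assoc, map_smul, h2, smul_eq_mul, ← mul_assoc, ht, one_mul]

variable [CharZero k]

/-- **Products.** -/
theorem nk_prod (hs : IsSuperFunctor R) (hm : IsMonoidal R) {e : Module.End k (R.H A)}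
    {f : Module.End k (R.H B)} (he : Halves R A e)
    (he' : NK R A (1 - e)) (hf : Halves R B f) (hf' : NK R B (1 - f)) :
    NK R (A ⊗ B) (ext R A B e (1 - f) + ext R A B (1 - e) f) := by
  intro s hs' a ha
  obtain ⟨e0, h0, e1, h1, -, -, rfl⟩ := he
  obtain ⟨f0, h2, f1, h3, -, -, hff⟩ := hf
  have hprod : ∀ t : k, t * t = 1 → s * t * (s * t) = 1 := by
    intro t ht
    calc s * t * (s * t) = (s * s) * (t * t) := by ring
      _ = 1 := by rw [hs', ht, one_mul]
  have k1 : ∀ t : k, t * t = 1 → ∀ φ ∈ PureS R A t,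
      LinearMap.trace k _ (a * ext R A B φ (1 - f)) = 0 := by
    intro t ht φ hφ
    obtain ⟨T, hT, h4⟩ := ptrace_pure' hs hm ht ha hφ
    rw [h4]
    exact hf' _ (hprod t ht) T hT
  have k2 : ∀ t : k, t * t = 1 → ∀ ψ ∈ PureS R B t,
      LinearMap.trace k _ (a * ext R A B (1 - (e0 + e1)) ψ) = 0 := by
    intro t ht ψ hψ
    obtain ⟨T, hT, h4⟩ := ptrace_pure hs hm ht ha hψ
    rw [h4]
    exact he' _ (hprod t ht) T hT
  have h5 : ext R A B (e0 + e1) (1 - f) = ext R A B e0 (1 - f) + ext R A B e1 (1 - f) :=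
    ext_add_left _ _ _
  have h6 : ext R A B (1 - (e0 + e1)) f = ext R A B (1 - (e0 + e1)) f0 +
      ext R A B (1 - (e0 + e1)) f1 := by
    rw [hff]
    exact ext_add_right _ _ _
  rw [h5, h6, mul_add, mul_add, mul_add, map_add, map_add, map_add, k1 1 (by ring) e0 h0,
    k1 (-1) (by ring) e1 h1, k2 1 (by ring) f0 h2, k2 (-1) (by ring) f1 h3]
  simp

end Product

section Phantom

/-- A correspondence which is numerically equivalent to zero is orthogonal to the pure ones. -/
lemma nk_of_numTrivial (hs : IsSuperFunctor R) {a : Module.End k (R.H A)}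
    (ha : IsNumTrivial R A a) : NK R A a := by
  intro s hs' y hy
  have h1 : LinearMap.trace k _ ((R.par A : Module.End k (R.H A)) * (a * y)) = 0 := ha.2 y hy.1
  rw [← mul_assoc, par_comm hs ha.1, mul_assoc, hy.2, mul_smul_comm, map_smul, smul_eq_mul,
    LinearMap.trace_mul_comm] at h1
  refine (mul_eq_zero.1 h1).resolve_left ?_
  rintro rfl
  simp at hs'

/-- The product with a numerically trivial correspondence. -/
lemma numTrivial_ext_left (hs : IsSuperFunctor R) (hm : IsMonoidal R)
    {a : Module.End k (R.H A)} (ha : IsNumTrivial R A a) {b : Module.End k (R.H B)}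
    (hb : b ∈ corr R B) : IsNumTrivial R (A ⊗ B) (ext R A B a b) := by
  refine ⟨corr_ext hm ha.1 hb, fun y hy => ?_⟩
  change LinearMap.trace k _ ((R.par (A ⊗ B) : Module.End k (R.H (A ⊗ B))) *
    ((ext R A B a b : Module.End k (R.H (A ⊗ B))) * y)) = 0
  obtain ⟨g, hg, h1⟩ := ptrace_left hm (corr_mul hs hy (corr_ext hm (corr_one hs A) hb))
  have h2 := h1 (R.par A * a)
  have h3 : (ext R A B 1 b : Module.End k (R.H (A ⊗ B))) *
      ext R A B ((R.par A : Module.End k (R.H A)) * a) (R.par B) =
      (R.par (A ⊗ B) : Module.End k (R.H (A ⊗ B))) * ext R A B a b := by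
    rw [hm.ext_par, ← ext_mul, ← ext_mul, one_mul, par_comm hs hb]
  rw [mul_assoc, h3, LinearMap.trace_mul_comm, LinearMap.trace_mul_comm k y, mul_assoc,
    mul_assoc] at h2
  rw [← h2]
  exact ha.2 g hg

lemma numTrivial_ext_right (hs : IsSuperFunctor R) (hm : IsMonoidal R)
    {a : Module.End k (R.H A)} (ha : a ∈ corr R A) {b : Module.End k (R.H B)}
    (hb : IsNumTrivial R B b) : IsNumTrivial R (A ⊗ B) (ext R A B a b) := by
  refine ⟨corr_ext hm ha hb.1, fun y hy => ?_⟩
  change LinearMap.trace k _ ((R.par (A ⊗ B) : Module.End k (R.H (A ⊗ B))) *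
    ((ext R A B a b : Module.End k (R.H (A ⊗ B))) * y)) = 0
  obtain ⟨g, hg, h1⟩ := ptrace_right hm (corr_mul hs hy (corr_ext hm ha (corr_one hs B)))
  have h2 := h1 (R.par B * b)
  have h3 : (ext R A B a 1 : Module.End k (R.H (A ⊗ B))) *
      ext R A B (R.par A) ((R.par B : Module.End k (R.H B)) * b) =
      (R.par (A ⊗ B) : Module.End k (R.H (A ⊗ B))) * ext R A B a b := by
    rw [hm.ext_par, ← ext_mul, ← ext_mul, one_mul, par_comm hs ha]
  rw [mul_assoc, h3, LinearMap.trace_mul_comm, LinearMap.trace_mul_comm k y, mul_assoc,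
    mul_assoc] at h2
  rw [← h2]
  exact hb.2 g hg

lemma numTrivial_add {a b : Module.End k (R.H A)} (ha : IsNumTrivial R A a)
    (hb : IsNumTrivial R A b) : IsNumTrivial R A (a + b) := by
  refine ⟨Submodule.add_mem _ ha.1 hb.1, fun y hy => ?_⟩
  have h1 : LinearMap.trace k _ ((R.par A : Module.End k (R.H A)) * (a * y)) = 0 := ha.2 y hy
  have h2 : LinearMap.trace k _ ((R.par A : Module.End k (R.H A)) * (b * y)) = 0 := hb.2 y hy
  change LinearMap.trace k _ ((R.par A : Module.End k (R.H A)) * ((a + b) * y)) = 0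
  rw [add_mul, mul_add, map_add, h1, h2, add_zero]

end Phantom

end Pool.Agent.T9h5.NT
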