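import Mathlib

/-!
# Periodic cyclic homology of tensor products: definitions

`C` is the category of the saturated dg categories over the field `k`; the morphisms `𝒜 ⟶ ℬ` are the
elements of `K_0 (𝒜ᵒᵖ ⊗ ℬ)`, and `𝒜 ⊗ ℬ` is the tensor product of dg categories.
-/

set_option autoImplicit false

open CategoryTheory MonoidalCategory Module

namespace Pool.Agent.T9h5.NT

universe v w x z

/-- The data of periodic cyclic homology: the spaces `H A`, each the sum of the even and the odd
part, the operators of correspondences, the parity operators, and the Kunneth isomorphisms. -/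
structure Realisation (k : Type x) [Field k] (C : Type w) [Category.{v} C]
    [MonoidalCategory C] where
  /-- periodic cyclic homology, the sum of the even and the odd part -/
  H : C → Type z
  [group : ∀ A, AddCommGroup (H A)]
  [module : ∀ A, Module k (H A)]
  [finite : ∀ A, FiniteDimensional k (H A)]
  /-- the operator of a correspondence -/
  map : ∀ {A B : C}, (A ⟶ B) → (H A →ₗ[k] H B)
  /-- the parity operator: `1` on the even part, `- 1` on the odd part -/
  par : ∀ A : C, H A →ₗ[k] H A
  /-- the isomorphism of Kunneth -/
  kun : ∀ A B : C, TensorProduct k (H A) (H B) ≃ₗ[k] H (A ⊗ B)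

attribute [instance] Realisation.group Realisation.module Realisation.finite

variable {k : Type x} [Field k] {C : Type w} [Category.{v} C] [MonoidalCategory C]

/-- The operator on `H (A ⊗ B)` which corresponds to `f ⊗ g`. -/
noncomputable def ext (R : Realisation.{v, w, x, z} k C) (A B : C) (f : R.H A →ₗ[k] R.H A)
    (g : R.H B →ₗ[k] R.H B) : R.H (A ⊗ B) →ₗ[k] R.H (A ⊗ B) :=
  ((R.kun A B).toLinearMap ∘ₗ TensorProduct.map f g) ∘ₗ (R.kun A B).symm.toLinearMap

/-- The trace of `f g`. -/
noncomputable def tr (R : Realisation.{v, w, x, z} k C) {A : C} (f g : R.H A →ₗ[k] R.H A) : k :=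
  LinearMap.trace k (R.H A) (f ∘ₗ g)

/-- Functoriality, and the compatibility of parity with correspondences. -/
structure IsSuperFunctor (R : Realisation.{v, w, x, z} k C) : Prop where
  map_id : ∀ A : C, R.map (𝟙 A) = LinearMap.id
  map_comp : ∀ {A B D : C} (f : A ⟶ B) (g : B ⟶ D), R.map (f ≫ g) = R.map g ∘ₗ R.map f
  par_par : ∀ (A : C) (a : R.H A), R.par A (R.par A a) = a
  par_map : ∀ {A B : C} (f : A ⟶ B) (a : R.H A), R.par B (R.map f a) = R.map f (R.par A a)

/-- The Kunneth isomorphism is compatible with correspondences and with parity, and the partial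
supertraces of endomorphisms of `A ⊗ B` over `B` and over `A` are given by endomorphisms of `A` and
`B`: for instance the partial supertrace of `F` over `B` is the operator `G` on `H A` with
`tr (G x) = tr (F (x ⊗ par B))` for all `x`. (In a rigid category these are the partial traces.) -/
structure IsMonoidal (R : Realisation.{v, w, x, z} k C) : Prop where
  ext_map : ∀ {A B : C} (f : A ⟶ A) (g : B ⟶ B), R.map (f ⊗ₘ g) = ext R A B (R.map f) (R.map g)
  ext_par : ∀ A B : C, R.par (A ⊗ B) = ext R A B (R.par A) (R.par B)
  trace_left : ∀ {A B : C} (f : A ⊗ B ⟶ A ⊗ B), ∃ g : A ⟶ A, ∀ x : R.H A →ₗ[k] R.H A,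
    tr R (R.map g) x = tr R (R.map f) (ext R A B x (R.par B))
  trace_right : ∀ {A B : C} (f : A ⊗ B ⟶ A ⊗ B), ∃ g : B ⟶ B, ∀ y : R.H B →ₗ[k] R.H B,
    tr R (R.map g) y = tr R (R.map f) (ext R A B (R.par A) y)

variable (R : Realisation.{v, w, x, z} k C)

/-- The operators of noncommutative correspondences and their `k`-linear combinations. -/
def corr (A : C) : Submodule k (R.H A →ₗ[k] R.H A) :=
  Submodule.span k {F | ∃ f : A ⟶ A, R.map f = F}

/-- The noncommutative Kunneth conjecture for `A`: the projector to the even part is a `k`-linear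
combination of noncommutative correspondences. (Then so is the projector to the odd part.) -/
def Kunneth (A : C) : Prop :=
  ∃ e ∈ corr R A, ∀ a : R.H A, e a = (2⁻¹ : k) • (a + R.par A a)

/-- `e` is an idempotent `k`-linear combination of correspondences, and its image has parity `s`:
it is even for `s = 1` and odd for `s = -1`. -/
def IsPure (A : C) (s : k) (e : R.H A →ₗ[k] R.H A) : Prop :=
  e ∈ corr R A ∧ ∀ a : R.H A, e (e a) = e a ∧ R.par A (e a) = s • e a

/-- The rank of an operator on `H A`. -/
noncomputable def rank {A : C} (e : R.H A →ₗ[k] R.H A) : ℕ := finrank k (LinearMap.range e)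

/-- The dimensions of the sums of an even and an odd direct summand of `A`. -/
def pureRanks (A : C) : Set ℕ :=
  {r | ∃ e₀ e₁, IsPure R A 1 e₀ ∧ IsPure R A (-1) e₁ ∧ rank R e₀ + rank R e₁ = r}

/-- The dimension of the largest sum of an even and an odd direct summand of `A`. -/
noncomputable def pureDim (A : C) : ℕ := sSup (pureRanks R A)

/-- The dimension of `H A`. -/
noncomputable def dim (A : C) : ℕ := finrank k (R.H A)

/-- `a` is a `k`-linear combination of correspondences which is numerically equivalent to zero: the
supertraces of its products with all correspondences vanish. -/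
def IsNumTrivial (A : C) (a : R.H A →ₗ[k] R.H A) : Prop :=
  a ∈ corr R A ∧ ∀ y ∈ corr R A, tr R (R.par A) (a ∘ₗ y) = 0

/-- The ranks of the idempotents which are numerically equivalent to zero. -/
def phantomRanks (A : C) : Set ℕ :=
  {r | ∃ e, IsNumTrivial R A e ∧ e ∘ₗ e = e ∧ rank R e = r}

/-- The largest rank of an idempotent which is numerically equivalent to zero. -/
noncomputable def phantomDim (A : C) : ℕ := sSup (phantomRanks R A)

/-- The power `A ⊗ ... ⊗ A` with `n + 1` factors. -/
def pw (A : C) : ℕ → C
  | 0 => A
  | n + 1 => A ⊗ pw A n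

end Pool.Agent.T9h5.NT
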