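import Pool.Agent.T9h5.NT.Main

/-!
# Phantoms, and the law for the tensor powers
-/

set_option autoImplicit false

open CategoryTheory MonoidalCategory Module Filter

namespace Pool.Agent.T9h5.NT

open Pool.Agent.N536.HK

universe v w x z

variable {k : Type x} [Field k] {C : Type w} [Category.{v} C] [MonoidalCategory C]
  {R : Realisation.{v, w, x, z} k C} {A B D : C} [CharZero k]

section Phantom

omit [CharZero k] in
/-- The largest rank of a numerically trivial idempotent is attained. -/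
theorem isGreatest_phantom (R : Realisation.{v, w, x, z} k C) (A : C) :
    IsGreatest (phantomRanks R A) (phantomDim R A) := by
  have hne : (phantomRanks R A).Nonempty := by
    refine ⟨0, 0, ⟨Submodule.zero_mem _, fun y _ => ?_⟩, ?_, ?_⟩
    · rw [LinearMap.zero_comp, tr, LinearMap.comp_zero, map_zero]
    · rw [LinearMap.zero_comp]
    · rw [rank, LinearMap.range_zero, finrank_bot]
  have hbd : BddAbove (phantomRanks R A) := by
    refine ⟨dim R A, ?_⟩
    rintro r ⟨e, -, -, rfl⟩
    exact Submodule.finrank_le _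
  exact ⟨Nat.sSup_mem hne hbd, fun r hr => le_csSup hbd hr⟩

omit [CharZero k] in
lemma phantomDim_le (R : Realisation.{v, w, x, z} k C) (A : C) : phantomDim R A ≤ dim R A := by
  obtain ⟨e, -, -, h⟩ := (isGreatest_phantom R A).1
  rw [← h]
  exact Submodule.finrank_le _

/-- The pure part and a phantom are independent. -/
theorem pureDim_le_sub (hs : IsSuperFunctor R) (A : C) :
    pureDim R A ≤ dim R A - phantomDim R A := by
  obtain ⟨e, he, he'⟩ := exists_halves hs A
  obtain ⟨f, hf, hf', h⟩ := (isGreatest_phantom R A).1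
  rw [pureDim_eq hs he he', ← h]
  have h1 := rank_halves_le hs hf.1 (nk_of_numTrivial hs hf) he
  rwa [rank_compl' (e := (f : Module.End k (R.H A))) hf'] at h1

/-- Phantoms of a tensor product. -/
theorem sub_phantomDim_le (hs : IsSuperFunctor R) (hm : IsMonoidal R) (A B : C) :
    dim R (A ⊗ B) - phantomDim R (A ⊗ B) ≤
      (dim R A - phantomDim R A) * (dim R B - phantomDim R B) := by
  obtain ⟨e, he, he', h⟩ := (isGreatest_phantom R A).1
  obtain ⟨f, hf, hf', h'⟩ := (isGreatest_phantom R B).1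
  have hei : (e * e : Module.End k (R.H A)) = e := he'
  have hfi : (f * f : Module.End k (R.H B)) = f := hf'
  set p : Module.End k (R.H (A ⊗ B)) := ext R A B (1 - e) (1 - f) with hp
  have hpi : p * p = p := by
    rw [hp, ← ext_mul, idem_compl hei, idem_compl hfi]
  have hr : finrank k (LinearMap.range p) =
      (dim R A - phantomDim R A) * (dim R B - phantomDim R B) := by
    rw [hp, rank_ext (idem_compl hei) (idem_compl hfi), rank_compl' hei, rank_compl' hfi, ← h,
      ← h']
    rfl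
  have h1 : 1 - p = ext R A B e (1 - f) + ext R A B 1 f := by
    have h2 : (1 : Module.End k (R.H (A ⊗ B))) = ext R A B (e + (1 - e)) (f + (1 - f)) := by
      rw [add_sub_cancel, add_sub_cancel, ext_one]
    have h3 : ext R A B (1 : Module.End k (R.H A)) f =
        ext R A B (e + (1 - e)) f := by rw [add_sub_cancel]
    rw [h2, h3, hp, ext_add_left, ext_add_right, ext_add_right, ext_add_left]
    abel
  have h2 : IsNumTrivial R (A ⊗ B) (1 - p : Module.End k (R.H (A ⊗ B))) := by
    rw [h1]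
    exact numTrivial_add (numTrivial_ext_left hs hm he
      (Submodule.sub_mem _ (corr_one hs B) hf.1)) (numTrivial_ext_right hs hm (corr_one hs A) hf)
  have h3 : finrank k (LinearMap.range (1 - p)) ≤ phantomDim R (A ⊗ B) :=
    (isGreatest_phantom R (A ⊗ B)).2 ⟨_, h2, idem_compl hpi, rfl⟩
  have h4 := rank_compl hpi
  rw [hr] at h4
  have h5 : dim R (A ⊗ B) = finrank k (R.H (A ⊗ B)) := rfl
  omega

end Phantom

section Iso

/-- Isomorphic objects have the same pure dimension. -/
lemma pureDim_le_of_iso (hs : IsSuperFunctor R) (i : A ≅ B) : pureDim R A ≤ pureDim R B := by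
  set F : R.H A →ₗ[k] R.H B := R.map i.hom with hF
  set G : R.H B →ₗ[k] R.H A := R.map i.inv with hG
  have hGF : G ∘ₗ F = LinearMap.id := by rw [hG, hF, ← hs.map_comp, i.hom_inv_id, hs.map_id]
  have hcorr : ∀ a ∈ corr R A, F ∘ₗ a ∘ₗ G ∈ corr R B := by
    intro a ha
    induction ha using Submodule.span_induction with
    | mem y hy =>
      obtain ⟨f, rfl⟩ := hy
      exact Submodule.subset_span ⟨i.inv ≫ f ≫ i.hom, by
        rw [hs.map_comp, hs.map_comp, LinearMap.comp_assoc]⟩
    | zero => rw [LinearMap.zero_comp, LinearMap.comp_zero]; exact Submodule.zero_mem _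
    | add y y' _ _ h h' =>
      rw [LinearMap.add_comp, LinearMap.comp_add]; exact Submodule.add_mem _ h h'
    | smul c y _ h =>
      rw [LinearMap.smul_comp, LinearMap.comp_smul]; exact Submodule.smul_mem _ _ h
  have hpure : ∀ s : k, ∀ e : R.H A →ₗ[k] R.H A, IsPure R A s e →
      IsPure R B s (F ∘ₗ e ∘ₗ G) ∧ rank R (F ∘ₗ e ∘ₗ G) = rank R e := by
    intro s e he
    have h0 : ∀ a, G (F a) = a := fun a => congrArg (fun T : R.H A →ₗ[k] R.H A => T a) hGF
    have h1 : ∀ b, (F ∘ₗ e ∘ₗ G) ((F ∘ₗ e ∘ₗ G) b) = (F ∘ₗ e ∘ₗ G) b := by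
      intro b
      simp only [LinearMap.comp_apply]
      rw [h0, (he.2 _).1]
    have h2 : (F ∘ₗ e ∘ₗ G : Module.End k (R.H B)) * (F ∘ₗ e ∘ₗ G : Module.End k (R.H B)) =
        F ∘ₗ e ∘ₗ G := LinearMap.ext h1
    have h3 : (e * e : Module.End k (R.H A)) = e := LinearMap.ext fun a => (he.2 a).1
    refine ⟨⟨hcorr e he.1, fun b => ⟨h1 b, ?_⟩⟩, ?_⟩
    · simp only [LinearMap.comp_apply]
      rw [hF, hs.par_map, (he.2 _).2, map_smul]
    · have h4 := trace_idem h2
      have h5 := trace_idem h3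
      have h6 : LinearMap.trace k _ (F ∘ₗ e ∘ₗ G) = LinearMap.trace k _ e := by
        rw [LinearMap.trace_comp_comm', LinearMap.comp_assoc, hGF, LinearMap.comp_id]
      rw [h6, h5] at h4
      unfold rank
      exact_mod_cast h4.symm
  obtain ⟨e₀, e₁, h0, h1, h⟩ := (isGreatest hs A).1
  obtain ⟨h2, h3⟩ := hpure _ _ h0
  obtain ⟨h4, h5⟩ := hpure _ _ h1
  exact (isGreatest hs B).2 ⟨_, _, h2, h4, by rw [h3, h5, h]⟩

lemma pureDim_iso (hs : IsSuperFunctor R) (i : A ≅ B) : pureDim R A = pureDim R B :=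
  le_antisymm (pureDim_le_of_iso hs i) (pureDim_le_of_iso hs i.symm)

omit [CharZero k] in
/-- The power with `m + n + 2` factors. -/
lemma pw_iso (A : C) (m n : ℕ) : Nonempty (pw A (m + n + 1) ≅ pw A m ⊗ pw A n) := by
  induction m with
  | zero => rw [zero_add]; exact ⟨Iso.refl _⟩
  | succ m ih =>
    obtain ⟨i⟩ := ih
    have h : m + 1 + n + 1 = (m + n + 1) + 1 := by ring
    rw [h]
    exact ⟨(whiskerLeftIso A i) ≪≫ (α_ A (pw A m) (pw A n)).symm⟩

omit [CharZero k] in
lemma dim_pw (A : C) (n : ℕ) : dim R (pw A n) = dim R A ^ (n + 1) := by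
  induction n with
  | zero => rw [zero_add, pow_one]; rfl
  | succ n ih =>
    have h : dim R (pw A (n + 1)) = dim R A * dim R (pw A n) := dim_tensor A (pw A n)
    rw [h, ih, pow_succ' _ (n + 1)]

end Iso

section Law

/-- The bound for `m + n + 2` factors. -/
lemma pureDim_pw_le (hs : IsSuperFunctor R) (hm : IsMonoidal R) (A : C) (m n : ℕ) :
    pureDim R (pw A (m + n + 1)) ≤ pureDim R (pw A m) * pureDim R (pw A n) +
      (dim R (pw A m) - pureDim R (pw A m)) * (dim R (pw A n) - pureDim R (pw A n)) := by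
  obtain ⟨i⟩ := pw_iso A m n
  rw [pureDim_iso hs i]
  exact pureDim_tensor_le hs hm _ _

/-- The excess over one half. -/
noncomputable def exc (R : Realisation.{v, w, x, z} k C) (A : C) (n : ℕ) : ℝ :=
  2 * pureDim R (pw A n) / (dim R A : ℝ) ^ (n + 1) - 1

lemma exc_add (hs : IsSuperFunctor R) (hm : IsMonoidal R) (hA : dim R A ≠ 0) (m n : ℕ) :
    exc R A (m + n + 1) ≤ exc R A m * exc R A n := by
  have h1 := pureDim_pw_le hs hm A m n
  have h2 := pureDim_le hs (pw A m)
  have h3 := pureDim_le hs (pw A n)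
  have hb : (0 : ℝ) < dim R A := by exact_mod_cast Nat.pos_of_ne_zero hA
  rw [dim_pw] at h2 h3
  rw [dim_pw, dim_pw] at h1
  have h4 : (pureDim R (pw A (m + n + 1)) : ℝ) ≤
      (pureDim R (pw A m) : ℝ) * pureDim R (pw A n) +
      ((dim R A : ℝ) ^ (m + 1) - pureDim R (pw A m)) *
        ((dim R A : ℝ) ^ (n + 1) - pureDim R (pw A n)) := by
    have h5 : ((pureDim R (pw A (m + n + 1)) : ℕ) : ℝ) ≤
      ((pureDim R (pw A m) * pureDim R (pw A n) +
      (dim R A ^ (m + 1) - pureDim R (pw A m)) *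
        (dim R A ^ (n + 1) - pureDim R (pw A n)) : ℕ) : ℝ) := by exact_mod_cast h1
    push_cast [Nat.cast_sub h2, Nat.cast_sub h3] at h5
    exact h5
  have hm0 : (0 : ℝ) < (dim R A : ℝ) ^ (m + 1) := by positivity
  have hn0 : (0 : ℝ) < (dim R A : ℝ) ^ (n + 1) := by positivity
  have hmn : (dim R A : ℝ) ^ (m + n + 1 + 1) = (dim R A : ℝ) ^ (m + 1) * (dim R A : ℝ) ^ (n + 1) := by
    rw [← pow_add]; congr 1; ring
  unfold exc
  rw [hmn]
  set a : ℝ := ((pureDim R (pw A m) : ℕ) : ℝ)
  set b : ℝ := ((pureDim R (pw A n) : ℕ) : ℝ)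
  set c : ℝ := ((pureDim R (pw A (m + n + 1)) : ℕ) : ℝ)
  set M : ℝ := (dim R A : ℝ) ^ (m + 1)
  set N : ℝ := (dim R A : ℝ) ^ (n + 1)
  have h6 : 2 * c ≤ 2 * (a * b + (M - a) * (N - b)) := by linarith
  have h7 : (2 * a / M - 1) * (2 * b / N - 1) = 2 * (a * b + (M - a) * (N - b)) / (M * N) - 1 := by
    field_simp
    ring
  rw [h7]
  have h8 := div_le_div_of_nonneg_right h6 (mul_pos hm0 hn0).le
  linarith

/-- A sequence with `u (m + n + 1) ≤ u m * u n` and all values less than `1` has nonpositive upper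
limit. -/
lemma eventually_lt_of_submul {u : ℕ → ℝ} (h : ∀ m n, u (m + n + 1) ≤ u m * u n)
    (h1 : ∀ n, u n < 1) {ε : ℝ} (hε : 0 < ε) : ∀ᶠ n in atTop, u n < ε := by
  by_cases hall : ∀ n, u n ≤ 0
  · exact Eventually.of_forall fun n => (hall n).trans_lt hε
  · push Not at hall
    obtain ⟨m, hm⟩ := hall
    have h2 : ∀ j i : ℕ, u (i + j * (m + 1)) ≤ max (u i) 0 * u m ^ j := by
      intro j
      induction j with
      | zero => intro i; rw [zero_mul, add_zero, pow_zero, mul_one]; exact le_max_left _ _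
      | succ j ih =>
        intro i
        have h3 : i + (j + 1) * (m + 1) = m + (i + j * (m + 1)) + 1 := by ring
        rw [h3]
        refine (h _ _).trans ?_
        have h4 := mul_le_mul_of_nonneg_left (ih i) hm.le
        refine h4.trans (le_of_eq ?_)
        rw [pow_succ]
        ring
    have h3 : Tendsto (fun n : ℕ => u m ^ (n / (m + 1))) atTop (nhds 0) :=
      (tendsto_pow_atTop_nhds_zero_of_lt_one hm.le (h1 m)).comp
        (Nat.tendsto_div_const_atTop (Nat.succ_ne_zero m))
    filter_upwards [(tendsto_order.1 h3).2 ε hε] with n hn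
    have h4 := h2 (n / (m + 1)) (n % (m + 1))
    have h5 : n % (m + 1) + n / (m + 1) * (m + 1) = n := by
      rw [mul_comm]; exact Nat.mod_add_div n (m + 1)
    rw [h5] at h4
    refine (h4.trans ?_).trans_lt hn
    have h6 : max (u (n % (m + 1))) 0 ≤ 1 := max_le (h1 _).le zero_le_one
    have h7 : (0 : ℝ) ≤ u m ^ (n / (m + 1)) := pow_nonneg hm.le _
    nlinarith

lemma kunneth_of_pw (hs : IsSuperFunctor R) (hm : IsMonoidal R) (hA : dim R A ≠ 0) (n : ℕ)
    (h : Kunneth R (pw A n)) : Kunneth R A := by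
  cases n with
  | zero => exact h
  | succ n =>
    refine kunneth_left (B := pw A n) hs hm ?_ h
    rw [dim_pw]
    exact pow_ne_zero _ hA

lemma kunneth_pw (hs : IsSuperFunctor R) (hm : IsMonoidal R) (h : Kunneth R A) (n : ℕ) :
    Kunneth R (pw A n) := by
  induction n with
  | zero => exact h
  | succ n ih => exact kunneth_tensor hs hm h ih

lemma exc_lt_one (hs : IsSuperFunctor R) (hm : IsMonoidal R) (hA : dim R A ≠ 0)
    (h : ¬ Kunneth R A) (n : ℕ) : exc R A n < 1 := by
  have h1 : pureDim R (pw A n) < dim R A ^ (n + 1) := by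
    rw [← dim_pw]
    refine lt_of_le_of_ne (pureDim_le hs _) fun h2 => h ?_
    exact kunneth_of_pw hs hm hA n ((kunneth_iff hs).2 h2)
  have hb : (0 : ℝ) < dim R A := by exact_mod_cast Nat.pos_of_ne_zero hA
  have hn0 : (0 : ℝ) < (dim R A : ℝ) ^ (n + 1) := by positivity
  have h2 : (pureDim R (pw A n) : ℝ) < (dim R A : ℝ) ^ (n + 1) := by exact_mod_cast h1
  unfold exc
  have h3 : 2 * (pureDim R (pw A n) : ℝ) / (dim R A : ℝ) ^ (n + 1) < 2 := by
    rw [div_lt_iff₀ hn0]
    linarith
  linarith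

lemma dim_ne_zero (hs : IsSuperFunctor R) (h : ¬ Kunneth R A) : dim R A ≠ 0 := by
  intro h0
  apply h
  rw [kunneth_iff hs, h0]
  have := pureDim_le hs A
  omega

/-- **If the conjecture fails, the upper limit of the share of the pure part is at most `1 / 2`.** -/
theorem eventually_lt (hs : IsSuperFunctor R) (hm : IsMonoidal R) (h : ¬ Kunneth R A) {θ : ℝ}
    (hθ : 1 / 2 < θ) :
    ∀ᶠ n in atTop, (pureDim R (pw A n) : ℝ) < θ * dim R (pw A n) := by
  have hA := dim_ne_zero hs h
  have hb : (0 : ℝ) < dim R A := by exact_mod_cast Nat.pos_of_ne_zero hA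
  have h1 := eventually_lt_of_submul (exc_add hs hm hA) (exc_lt_one hs hm hA h)
    (show (0 : ℝ) < 2 * θ - 1 by linarith)
  filter_upwards [h1] with n hn
  have hn0 : (0 : ℝ) < (dim R A : ℝ) ^ (n + 1) := by positivity
  rw [dim_pw]
  push_cast
  unfold exc at hn
  have h2 : 2 * (pureDim R (pw A n) : ℝ) / (dim R A : ℝ) ^ (n + 1) < 2 * θ := by linarith
  rw [div_lt_iff₀ hn0] at h2
  linarith

theorem kunneth_iff_frequently (hs : IsSuperFunctor R) (hm : IsMonoidal R) (A : C) {θ : ℝ}
    (hθ : 1 / 2 < θ) (hθ' : θ ≤ 1) :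
    Kunneth R A ↔ ∃ᶠ n in atTop, θ * dim R (pw A n) ≤ pureDim R (pw A n) := by
  constructor
  · intro h
    refine Frequently.of_forall fun n => ?_
    rw [(kunneth_iff hs).1 (kunneth_pw hs hm h n)]
    exact mul_le_of_le_one_left (Nat.cast_nonneg _) hθ'
  · intro h
    by_contra hA
    refine h ?_
    filter_upwards [eventually_lt hs hm hA hθ] with n hn
    exact not_le.2 hn

theorem forall_iff (hs : IsSuperFunctor R) (hm : IsMonoidal R) {θ : ℝ}
    (hθ : 1 / 2 < θ) (hθ' : θ ≤ 1) :
    (∀ A, Kunneth R A) ↔ ∀ A, θ * dim R A ≤ pureDim R A := by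
  constructor
  · intro h A
    rw [(kunneth_iff hs).1 (h A)]
    exact mul_le_of_le_one_left (Nat.cast_nonneg _) hθ'
  · intro h A
    exact (kunneth_iff_frequently hs hm A hθ hθ').2 (Frequently.of_forall fun n => h _)

theorem pureDim_pw_le_pow (hs : IsSuperFunctor R) (hm : IsMonoidal R) (A : C) (n : ℕ) :
    pureDim R (pw A n) ≤ (dim R A - phantomDim R A) ^ (n + 1) := by
  have h : ∀ n, dim R (pw A n) - phantomDim R (pw A n) ≤
      (dim R A - phantomDim R A) ^ (n + 1) := by
    intro n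
    induction n with
    | zero => rw [zero_add, pow_one]; exact le_rfl
    | succ n ih =>
      refine (sub_phantomDim_le hs hm A (pw A n)).trans ?_
      rw [pow_succ']
      exact Nat.mul_le_mul_left _ ih
  exact (pureDim_le_sub hs _).trans (h n)

end Law

end Pool.Agent.T9h5.NT
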