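import Pool.Agent.T9h5.NT.Basic

/-!
# The dimension of the largest pure part, and tensor products
-/

set_option autoImplicit false

open CategoryTheory MonoidalCategory Module

namespace Pool.Agent.T9h5.NT

open Pool.Agent.N536.HK

universe v w x z

variable {k : Type x} [Field k] {C : Type w} [Category.{v} C] [MonoidalCategory C]
  {R : Realisation.{v, w, x, z} k C} {A B D : C} [CharZero k]

section Alg

lemma rank_compl {V : Type*} [AddCommGroup V] [Module k V] [FiniteDimensional k V]
    {e : Module.End k V} (he : e * e = e) :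
    finrank k (LinearMap.range e) + finrank k (LinearMap.range (1 - e)) = finrank k V := by
  have h1 : e * (1 - e) = 0 := by rw [mul_sub, he, mul_one, sub_self]
  have h2 : (1 - e) * e = 0 := by rw [sub_mul, he, one_mul, sub_self]
  rw [← rank_add he (idem_compl he) h1 h2, add_sub_cancel]
  have h3 : LinearMap.range (1 : Module.End k V) = ⊤ := LinearMap.range_id
  rw [h3, finrank_top]

lemma rank_compl' {V : Type*} [AddCommGroup V] [Module k V] [FiniteDimensional k V]
    {e : Module.End k V} (he : e * e = e) :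
    finrank k (LinearMap.range (1 - e)) = finrank k V - finrank k (LinearMap.range e) := by
  have := rank_compl he
  omega

omit [CharZero k] in
lemma eq_one_of_rank {V : Type*} [AddCommGroup V] [Module k V] [FiniteDimensional k V]
    {e : Module.End k V} (he : e * e = e)
    (h : finrank k (LinearMap.range e) = finrank k V) : e = 1 := by
  have h1 : LinearMap.range e = ⊤ := Submodule.eq_top_of_finrank_eq h
  apply LinearMap.ext
  intro x
  obtain ⟨y, rfl⟩ : x ∈ LinearMap.range e := by rw [h1]; trivial
  rw [← Module.End.mul_apply, he, Module.End.one_apply]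

end Alg

/-- The dimension of the largest sum of an even and an odd summand. -/
theorem isGreatest_ranks (hs : IsSuperFunctor R) {e : Module.End k (R.H A)} (he : Halves R A e)
    (h : NK R A (1 - e)) : IsGreatest (pureRanks R A) (finrank k (LinearMap.range e)) := by
  have hmem : (1 - e) ∈ corr R A := Submodule.sub_mem _ (corr_one hs A) he.mem
  have hub : ∀ r ∈ pureRanks R A, r ≤ finrank k (LinearMap.range e) := by
    rintro r ⟨e₀, e₁, h0, h1, rfl⟩
    obtain ⟨h0, h0'⟩ := isPure_iff.1 h0
    obtain ⟨h1, h1'⟩ := isPure_iff.1 h1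
    have h3 := rank_add h0' h1' (pureS_orth hs one_ne_neg_one' h0 h1)
      (pureS_orth hs (Ne.symm one_ne_neg_one') h1 h0)
    have h2 := rank_halves_le hs hmem h ⟨e₀, h0, e₁, h1, h0', h1', rfl⟩
    rw [sub_sub_cancel, h3] at h2
    exact h2
  have hin : finrank k (LinearMap.range e) ∈ pureRanks R A := by
    obtain ⟨e0, h0, e1, h1, h2, h3, rfl⟩ := he
    refine ⟨e0, e1, isPure_iff.2 ⟨h0, h2⟩, isPure_iff.2 ⟨h1, h3⟩, ?_⟩
    exact (rank_add h2 h3 (pureS_orth hs one_ne_neg_one' h0 h1)
      (pureS_orth hs (Ne.symm one_ne_neg_one') h1 h0)).symm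
  exact ⟨hin, hub⟩

theorem pureDim_eq (hs : IsSuperFunctor R) {e : Module.End k (R.H A)} (he : Halves R A e)
    (h : NK R A (1 - e)) : pureDim R A = finrank k (LinearMap.range e) :=
  (isGreatest_ranks hs he h).csSup_eq

theorem isGreatest (hs : IsSuperFunctor R) (A : C) :
    IsGreatest (pureRanks R A) (pureDim R A) := by
  obtain ⟨e, he, h⟩ := exists_halves hs A
  rw [pureDim_eq hs he h]
  exact isGreatest_ranks hs he h

lemma pureDim_le (hs : IsSuperFunctor R) (A : C) : pureDim R A ≤ dim R A := by
  obtain ⟨e, he, h⟩ := exists_halves hs A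
  rw [pureDim_eq hs he h]
  exact Submodule.finrank_le _

lemma half_two : (2⁻¹ : k) + 2⁻¹ = 1 := by
  rw [← two_mul, mul_inv_cancel₀ two_ne_zero]

/-- The conjecture holds if and only if parity is a combination of correspondences. -/
theorem kunneth_iff_par (hs : IsSuperFunctor R) : Kunneth R A ↔ R.par A ∈ corr R A := by
  constructor
  · rintro ⟨e, he, h⟩
    have h1 : (R.par A : Module.End k (R.H A)) = (2 : k) • e - 1 := by
      apply LinearMap.ext
      intro a
      rw [LinearMap.sub_apply, LinearMap.smul_apply, h, smul_smul,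
        mul_inv_cancel₀ (two_ne_zero' k), one_smul, Module.End.one_apply, add_sub_cancel_left]
    rw [h1]
    exact Submodule.sub_mem _ (Submodule.smul_mem _ _ he) (corr_one hs A)
  · intro h
    exact ⟨(2⁻¹ : k) • (1 + R.par A), Submodule.smul_mem _ _
      (Submodule.add_mem _ (corr_one hs A) h), fun a => rfl⟩

/-- If parity is a combination of correspondences, the pure part is everything. -/
theorem halves_one (hs : IsSuperFunctor R) (h : R.par A ∈ corr R A) :
    Halves R A 1 := by
  have hp := par_sq hs A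
  refine ⟨(2⁻¹ : k) • (1 + R.par A), ⟨Submodule.smul_mem _ _
    (Submodule.add_mem _ (corr_one hs A) h), ?_⟩, (2⁻¹ : k) • (1 - R.par A),
    ⟨Submodule.smul_mem _ _ (Submodule.sub_mem _ (corr_one hs A) h), ?_⟩, ?_, ?_, ?_⟩
  · rw [mul_smul_comm, mul_add, mul_one, hp, one_smul, add_comm]
  · rw [mul_smul_comm, mul_sub, mul_one, hp, neg_smul, one_smul, ← smul_neg, neg_sub]
  · rw [smul_mul_smul_comm, mul_add, add_mul, add_mul, one_mul, mul_one, one_mul, hp]
    have : (1 : Module.End k (R.H A)) + R.par A + (R.par A + 1) = (2 : k) • (1 + R.par A) := by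
      rw [two_smul]; abel
    rw [this, smul_smul, mul_assoc, inv_mul_cancel₀ (two_ne_zero' k), mul_one]
  · rw [smul_mul_smul_comm, mul_sub, sub_mul, sub_mul, one_mul, mul_one, one_mul, hp]
    have : (1 : Module.End k (R.H A)) - R.par A - (R.par A - 1) = (2 : k) • (1 - R.par A) := by
      rw [two_smul]; abel
    rw [this, smul_smul, mul_assoc, inv_mul_cancel₀ (two_ne_zero' k), mul_one]
  · rw [← smul_add, add_add_sub_cancel, ← two_smul k (1 : Module.End k (R.H A)), smul_smul,
      inv_mul_cancel₀ (two_ne_zero' k), one_smul]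

theorem kunneth_iff (hs : IsSuperFunctor R) : Kunneth R A ↔ pureDim R A = dim R A := by
  rw [kunneth_iff_par hs]
  constructor
  · intro h
    have h3 : NK R A (1 - 1) := by
      intro s _ a _
      rw [sub_self, mul_zero, map_zero]
    rw [pureDim_eq hs (halves_one hs h) h3]
    have h4 : LinearMap.range (1 : Module.End k (R.H A)) = ⊤ := LinearMap.range_id
    rw [h4, finrank_top]
    rfl
  · intro h
    obtain ⟨e, he, he'⟩ := exists_halves hs A
    rw [pureDim_eq hs he he'] at h
    have h2 : e = 1 := eq_one_of_rank (he.idem hs) h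
    obtain ⟨e0, h0, e1, h1, h3, h4, rfl⟩ := he
    have h5 : (R.par A : Module.End k (R.H A)) = e0 - e1 := by
      have h6 : (R.par A : Module.End k (R.H A)) * (e0 + e1) = e0 - e1 := by
        rw [mul_add, h0.2, h1.2, one_smul, neg_smul, one_smul, sub_eq_add_neg]
      rwa [h2, mul_one] at h6
    rw [h5]
    exact Submodule.sub_mem _ h0.1 h1.1

omit [CharZero k] in
lemma dim_tensor (A B : C) : dim R (A ⊗ B) = dim R A * dim R B := by
  unfold dim
  rw [← LinearEquiv.finrank_eq (R.kun A B), finrank_tensorProduct]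

lemma rank_ext {e : Module.End k (R.H A)} {f : Module.End k (R.H B)} (he : e * e = e)
    (hf : f * f = f) : finrank k (LinearMap.range (ext R A B e f)) =
      finrank k (LinearMap.range e) * finrank k (LinearMap.range f) := by
  have h1 : (ext R A B e f : Module.End k (R.H (A ⊗ B))) * ext R A B e f = ext R A B e f := by
    rw [← ext_mul, he, hf]
  have h5 := trace_idem h1
  rw [trace_ext, trace_idem he, trace_idem hf] at h5
  exact_mod_cast h5.symm

/-- The bound for a tensor product. -/
theorem pureDim_tensor_le (hs : IsSuperFunctor R) (hm : IsMonoidal R) (A B : C) :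
    pureDim R (A ⊗ B) ≤ pureDim R A * pureDim R B +
      (dim R A - pureDim R A) * (dim R B - pureDim R B) := by
  obtain ⟨e, he, he'⟩ := exists_halves hs A
  obtain ⟨f, hf, hf'⟩ := exists_halves hs B
  obtain ⟨g, hg, hg'⟩ := exists_halves hs (A ⊗ B)
  have hi := he.idem hs
  have hj := hf.idem hs
  rw [pureDim_eq hs he he', pureDim_eq hs hf hf', pureDim_eq hs hg hg', dim, dim,
    ← rank_compl' hi, ← rank_compl' hj]
  have hq : (ext R A B e (1 - f) + ext R A B (1 - e) f) ∈ corr R (A ⊗ B) := by
    have h1 : (1 - e) ∈ corr R A := Submodule.sub_mem _ (corr_one hs A) he.mem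
    have h2 : (1 - f) ∈ corr R B := Submodule.sub_mem _ (corr_one hs B) hf.mem
    exact Submodule.add_mem _ (corr_ext hm he.mem h2) (corr_ext hm h1 hf.mem)
  refine (rank_halves_le hs hq (nk_prod hs hm he he' hf hf') hg).trans ?_
  have h1 : (1 : Module.End k (R.H (A ⊗ B))) - (ext R A B e (1 - f) + ext R A B (1 - e) f) =
      ext R A B e f + ext R A B (1 - e) (1 - f) := by
    have h2 : (1 : Module.End k (R.H (A ⊗ B))) = ext R A B (e + (1 - e)) (f + (1 - f)) := by
      rw [add_sub_cancel, add_sub_cancel, ext_one]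
    rw [h2, ext_add_left, ext_add_right, ext_add_right]
    abel
  have hef : (ext R A B e f : Module.End k (R.H (A ⊗ B))) * ext R A B e f = ext R A B e f := by
    rw [← ext_mul, hi, hj]
  have hef' : (ext R A B (1 - e) (1 - f) : Module.End k (R.H (A ⊗ B))) *
      ext R A B (1 - e) (1 - f) = ext R A B (1 - e) (1 - f) := by
    rw [← ext_mul, idem_compl hi, idem_compl hj]
  have h3 : e * (1 - e) = 0 := by rw [mul_sub, hi, mul_one, sub_self]
  have h4 : (1 - e) * e = 0 := by rw [sub_mul, hi, one_mul, sub_self]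
  rw [h1, rank_add hef hef' (by rw [← ext_mul, h3, ext_zero_left])
    (by rw [← ext_mul, h4, ext_zero_left]), rank_ext hi hj,
    rank_ext (idem_compl hi) (idem_compl hj)]

/-- **Factors.** -/
theorem kunneth_left (hs : IsSuperFunctor R) (hm : IsMonoidal R) (hB : dim R B ≠ 0)
    (h : Kunneth R (A ⊗ B)) : Kunneth R A := by
  rw [kunneth_iff_par hs] at h ⊢
  obtain ⟨g, hg, h1⟩ := ptrace_left hm h
  have h2 : g = (dim R B : k) • (R.par A : Module.End k (R.H A)) := by
    apply trace_nondeg
    intro x
    rw [h1, hm.ext_par, ← ext_mul, par_sq hs, trace_ext, smul_mul_assoc, map_smul,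
      LinearMap.trace_one, smul_eq_mul, mul_comm]
    rfl
  have h3 : (dim R B : k) ≠ 0 := Nat.cast_ne_zero.2 hB
  have h4 : (R.par A : Module.End k (R.H A)) = (dim R B : k)⁻¹ • g := by
    rw [h2, smul_smul, inv_mul_cancel₀ h3, one_smul]
  rw [h4]
  exact Submodule.smul_mem _ _ hg

theorem kunneth_right (hs : IsSuperFunctor R) (hm : IsMonoidal R) (hA : dim R A ≠ 0)
    (h : Kunneth R (A ⊗ B)) : Kunneth R B := by
  rw [kunneth_iff_par hs] at h ⊢
  obtain ⟨g, hg, h1⟩ := ptrace_right hm h
  have h2 : g = (dim R A : k) • (R.par B : Module.End k (R.H B)) := by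
    apply trace_nondeg
    intro y
    rw [h1, hm.ext_par, ← ext_mul, par_sq hs, trace_ext, smul_mul_assoc, map_smul,
      LinearMap.trace_one, smul_eq_mul]
    rfl
  have h3 : (dim R A : k) ≠ 0 := Nat.cast_ne_zero.2 hA
  have h4 : (R.par B : Module.End k (R.H B)) = (dim R A : k)⁻¹ • g := by
    rw [h2, smul_smul, inv_mul_cancel₀ h3, one_smul]
  rw [h4]
  exact Submodule.smul_mem _ _ hg

theorem kunneth_tensor (hs : IsSuperFunctor R) (hm : IsMonoidal R) (hA : Kunneth R A)
    (hB : Kunneth R B) : Kunneth R (A ⊗ B) := by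
  rw [kunneth_iff_par hs] at hA hB ⊢
  rw [hm.ext_par]
  exact corr_ext hm hA hB

end Pool.Agent.T9h5.NT
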